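import Pool.Agent.Hhelper53.Hyper.Copies

set_option autoImplicit false

/-!
# Hyper-irregular graphs

For every `n ≥ 3` there are infinitely many `n`-hyper-irregular graphs.
-/

namespace Pool.Agent.Results.MP_0c99a5_co.HyperIrregularGraphs

open SimpleGraph

/-- The `F`-degree of the vertex `v` in `G`: the number of subgraphs of `G` (not necessarily
induced) which contain `v` and are isomorphic to `F`. -/
noncomputable def fDegree {α V : Type} (F : SimpleGraph α) (G : SimpleGraph V) (v : V) : ℕ :=
  {S : G.Subgraph | v ∈ S.verts ∧ Nonempty (S.coe ≃g F)}.ncard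

/-- `G` is `F`-irregular: distinct vertices have distinct `F`-degrees. -/
def FIrregular {α V : Type} (F : SimpleGraph α) (G : SimpleGraph V) : Prop :=
  ∀ v w : V, v ≠ w → fDegree F G v ≠ fDegree F G w

/-- `G` is `n`-hyper-irregular: it is `F`-irregular for every graph `F` with at most `n` vertices
and at least two edges. -/
def HyperIrregular {V : Type} (n : ℕ) (G : SimpleGraph V) : Prop :=
  ∀ k : ℕ, k ≤ n → ∀ F : SimpleGraph (Fin k), 2 ≤ F.edgeSet.ncard → FIrregular F G

/-- For every `n ≥ 3` there are `n`-hyper-irregular graphs of infinitely many orders; in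
particular there are infinitely many pairwise non-isomorphic ones. -/
theorem result : ∀ n : ℕ, 3 ≤ n →
    {N : ℕ | ∃ G : SimpleGraph (Fin N), HyperIrregular n G}.Infinite := by
  intro n _
  rw [Set.infinite_iff_exists_gt]
  intro m
  obtain ⟨S, N, hmN, hS, hB⟩ := Pool.Agent.Hhelper53.Hyper.exists_graph n (m + 1)
  let V := Pool.Agent.Hhelper53.Hyper.Vt (Fin (S + 1)) (Pool.Agent.Hhelper53.Hyper.Wt S) N
  let G : SimpleGraph V := Pool.Agent.Hhelper53.Hyper.GG (Pool.Agent.Hhelper53.Hyper.BB S) N
  let e : Fin (Nat.card V) ≃ V := (Finite.equivFin V).symm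
  refine ⟨Nat.card V, ⟨G.comap e, ?_⟩, ?_⟩
  · intro k hk F hF v w hvw hdeg
    have h1 : Pool.Agent.Hhelper53.Hyper.J F (G.comap e) v
        = Pool.Agent.Hhelper53.Hyper.J F (G.comap e) w :=
      Pool.Agent.Hhelper53.Hyper.J_eq_of_copies F (G.comap e) v w hdeg
    rw [Pool.Agent.Hhelper53.Hyper.J_comap, Pool.Agent.Hhelper53.Hyper.J_comap] at h1
    exact Pool.Agent.Hhelper53.Hyper.all_ne' n S N hS hB k (Fin k) (Fintype.card_fin k) hk F
      (Pool.Agent.Hhelper53.Hyper.twoEdges_of_ncard F hF) (e v) (e w)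
      (fun h => hvw (e.injective h)) h1
  · have h2 : Nat.card V = Fintype.card (Fin (S + 1)) +
        Fintype.card (Pool.Agent.Hhelper53.Hyper.Wt S) + 6 + 2 * N :=
      Pool.Agent.Hhelper53.Hyper.card_Vt
    show m < Nat.card V
    omega

end Pool.Agent.Results.MP_0c99a5_co.HyperIrregularGraphs
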